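import Pool.Agent.Helper5.PQ.Stm
import Pool.Agent.Helper5.RD.PD1
import Pool.Agent.Helper5.RD.PD2

/-! # Project PQ, package GC -/

namespace Pool.Agent.Helper38.PQ

open Finset Classical Pool.Agent.Helper5.RD Pool.Agent.Helper5.PQ

noncomputable section

/-- The exponent of `p` in a squarefree number. -/
theorem fact_prod {S : Finset ℕ} (hS : ∀ q ∈ S, q.Prime) (p : ℕ) :
    (∏ q ∈ S, q).factorization p = if p ∈ S then 1 else 0 := by
  rw [Nat.factorization_prod (fun q hq => (hS q hq).ne_zero), Finsupp.finsetSum_apply]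
  have h : ∀ q ∈ S, q.factorization p = if p = q then 1 else 0 := by
    intro q hq
    rw [(hS q hq).factorization, Finsupp.single_apply]
    by_cases h : p = q
    · subst h; simp
    · rw [if_neg h, if_neg (Ne.symm h)]
  rw [Finset.sum_congr rfl h, Finset.sum_ite_eq]

theorem prod_ne {S : Finset ℕ} (hS : ∀ q ∈ S, q.Prime) : (∏ q ∈ S, q) ≠ 0 :=
  Finset.prod_ne_zero_iff.2 fun q hq => (hS q hq).ne_zero

section fib

variable {Q0 : Finset ℕ} {U T : Finset ℕ}

theorem split (z : ℕ × Finset ℕ) (Q0 : Finset ℕ) : z.2 = (z.2 ∩ Q0) ∪ (z.2 \ Q0) := by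
  ext q; simp only [Finset.mem_union, Finset.mem_inter, Finset.mem_sdiff]; tauto

theorem symm_sdiff {q : ℕ} (hq : q ∈ Q0) : symmDiff T {q} \ Q0 = T \ Q0 := by
  ext r
  simp only [Finset.mem_sdiff, Finset.mem_symmDiff, Finset.mem_singleton]
  constructor
  · rintro ⟨h1, h2⟩
    refine ⟨?_, h2⟩
    rcases h1 with h1 | h1
    · exact h1.1
    · exact absurd (h1.1 ▸ hq) h2
  · rintro ⟨h1, h2⟩
    refine ⟨Or.inl ⟨h1, ?_⟩, h2⟩
    rintro rfl
    exact h2 hq

theorem symm_inter {q : ℕ} (hq : q ∈ Q0) : symmDiff T {q} ∩ Q0 = symmDiff (T ∩ Q0) {q} := by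
  ext r
  simp only [Finset.mem_inter, Finset.mem_symmDiff, Finset.mem_singleton]
  by_cases hr : r = q
  · subst hr; tauto
  · tauto

end fib

/-- Package GC, from D2. -/
theorem p_GC' (hGEN : S_GEN) (hD2 : S_D2) : S_GC := by
  intro P hK1 hK2 Q0 ps hQ0 hps hnd hlt A0 h hA0 X B b F0 j
  have hQps : ∀ q ∈ ps.toFinset, q.Prime := fun q hq => hps q (List.mem_toFinset.1 hq)
  have hdisj : ∀ p ∈ ps, p ∉ Q0 := fun p hp hq => lt_irrefl _ (hlt p hq p hp)
  obtain ⟨R, hR⟩ : ∃ R : Finset ℕ, R = Q0 ∪ ps.toFinset := ⟨_, rfl⟩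
  rw [← hR]
  have hRp : ∀ q ∈ R, q.Prime := by
    intro q hq
    rw [hR] at hq
    rcases Finset.mem_union.1 hq with h | h
    · exact hQ0 q h
    · exact hQps q h
  obtain ⟨fib, hfib⟩ : ∃ fib : ℕ × Finset ℕ → Finset (ℕ × Finset ℕ),
      fib = fun y => A0.filter (fun z => (z.1, z.2 \ Q0) = y) := ⟨_, rfl⟩
  obtain ⟨bad, hbad⟩ : ∃ bad : ℕ × Finset ℕ → Prop, bad = fun z =>
      F0 < bads P (sp R z) (ps.zip (lst ps z.2)) (X, B) ((xp R z : ℕ) : ℤ) b := ⟨_, rfl⟩
  have key : ∀ y, (F0 + 1).choose (2 * j) * h.choose j * ((fib y).filter bad).card ≤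
      ((P.K1 * P.K2) ^ 2) ^ (2 * j) * ps.length.choose (2 * j) * (fib y).card := by
    rintro ⟨x0, U⟩
    have hel : ∀ z ∈ fib (x0, U), z ∈ A0 ∧ z.1 = x0 ∧ z.2 \ Q0 = U := by
      intro z hz
      rw [hfib] at hz
      obtain ⟨h1, h2⟩ := Finset.mem_filter.1 hz
      exact ⟨h1, (Prod.mk.inj h2).1, (Prod.mk.inj h2).2⟩
    obtain ⟨F, hF⟩ : ∃ F : Finset (Finset ℕ), F = (fib (x0, U)).image (fun z => z.2 ∩ Q0) :=
      ⟨_, rfl⟩
    have hinj : Set.InjOn (fun z : ℕ × Finset ℕ => z.2 ∩ Q0) (fib (x0, U)) := by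
      intro z hz z' hz' he
      obtain ⟨-, h1, h2⟩ := hel z hz
      obtain ⟨-, h1', h2'⟩ := hel z' hz'
      have he' : z.2 ∩ Q0 = z'.2 ∩ Q0 := he
      refine Prod.ext (h1.trans h1'.symm) ?_
      rw [split z Q0, split z' Q0, he', h2, h2']
    have hcard : F.card = (fib (x0, U)).card := by
      rw [hF]; exact Finset.card_image_of_injOn hinj
    have hFQ : ∀ T ∈ F, T ⊆ Q0 := by
      intro T hT
      rw [hF] at hT
      obtain ⟨z, -, rfl⟩ := Finset.mem_image.1 hT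
      exact Finset.inter_subset_right
    have hdeg : ∀ T ∈ F, h ≤ Deg Q0 F T := by
      intro T hT
      rw [hF] at hT
      obtain ⟨z, hz, rfl⟩ := Finset.mem_image.1 hT
      obtain ⟨h1, h2, h3⟩ := hel z hz
      refine (hA0 z h1).trans (Finset.card_le_card ?_)
      intro q hq
      obtain ⟨hq1, hq2⟩ := Finset.mem_filter.1 hq
      refine Finset.mem_filter.2 ⟨hq1, ?_⟩
      rw [hF]
      refine Finset.mem_image.2 ⟨(z.1, symmDiff z.2 {q}), ?_, symm_inter hq1⟩
      rw [hfib]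
      refine Finset.mem_filter.2 ⟨hq2, ?_⟩
      show (z.1, symmDiff z.2 {q} \ Q0) = (x0, U)
      rw [symm_sdiff hq1, h2, h3]
    -- the data which depend only on the fibre
    obtain ⟨s1, hs1⟩ : ∃ s1 : ℕ, s1 = ∏ q ∈ U ∩ ps.toFinset, q := ⟨_, rfl⟩
    have hU1 : ∀ q ∈ U ∩ ps.toFinset, q.Prime := fun q hq => hQps q (Finset.mem_inter.1 hq).2
    have hs10 : s1 ≠ 0 := by rw [hs1]; exact prod_ne hU1
    obtain ⟨x1, hx1⟩ : ∃ x1 : ℕ, x1 = x0 * ∏ q ∈ U \ ps.toFinset, q := ⟨_, rfl⟩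
    have hsp : ∀ z ∈ fib (x0, U), sp R z = (∏ q ∈ z.2 ∩ Q0, q) * s1 ∧ xp R z = x1 ∧
        lst ps z.2 = lst ps U := by
      intro z hz
      obtain ⟨h1, h2, h3⟩ := hel z hz
      refine ⟨?_, ?_, ?_⟩
      · unfold sp
        rw [hs1, ← Finset.prod_union]
        · congr 1
          rw [← h3, hR]
          ext q
          simp only [Finset.mem_union, Finset.mem_inter, Finset.mem_sdiff]
          constructor
          · rintro ⟨h4, h5 | h5⟩
            · exact Or.inl ⟨h4, h5⟩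
            · exact Or.inr ⟨⟨h4, hdisj q (List.mem_toFinset.1 h5)⟩, h5⟩
          · rintro (⟨h4, h5⟩ | ⟨⟨h4, -⟩, h5⟩)
            · exact ⟨h4, Or.inl h5⟩
            · exact ⟨h4, Or.inr h5⟩
        · rw [Finset.disjoint_left]
          intro q hq hq'
          exact hdisj q (List.mem_toFinset.1 (Finset.mem_inter.1 hq').2) (Finset.mem_inter.1 hq).2
      · unfold xp
        rw [hx1, h2]
        congr 2
        rw [← h3, hR]
        ext q
        simp only [Finset.mem_union, Finset.mem_sdiff]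
        tauto
      · unfold lst
        refine List.map_congr_left fun p hp => ?_
        rw [← h3]
        have h4 := hdisj p hp
        simp [h4]
    obtain ⟨Z, hZ1, hZ2⟩ := hD2 P hK1 hK2 ps hnd hps (lst ps U) (X, B) ((x1 : ℕ) : ℤ) b
    obtain ⟨m, hm⟩ : ∃ m : ℕ → ℕ, m = fun p => s1 / p ^ s1.factorization p := ⟨_, rfl⟩
    have hmp : ∀ p ∈ ps.toFinset, ¬ p ∣ m p := by
      intro p hp
      rw [hm]
      exact Nat.not_dvd_ordCompl (hQps p hp) hs10
    have hG := hGEN Q0 ps.toFinset hQ0 hQps (fun q hq p hp => hlt q hq p (List.mem_toFinset.1 hp))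
      F h hFQ hdeg m hmp Z ((P.K1 * P.K2) ^ 2) (fun p _ => hZ1 p) (F0 + 1) j
    rw [List.toFinset_card_of_nodup hnd, hcard] at hG
    refine le_trans (Nat.mul_le_mul_left _ ?_) hG
    refine Finset.card_le_card_of_injOn (fun z : ℕ × Finset ℕ => z.2 ∩ Q0) ?_ (hinj.mono (by
      intro z hz
      exact (Finset.mem_filter.1 hz).1))
    intro z hz
    obtain ⟨hz1, hz2⟩ := Finset.mem_filter.1 hz
    obtain ⟨e1, e2, e3⟩ := hsp z hz1
    have hTF : z.2 ∩ Q0 ∈ F := by rw [hF]; exact Finset.mem_image_of_mem _ hz1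
    have hTp : ∀ q ∈ z.2 ∩ Q0, q.Prime := fun q hq => hQ0 q (Finset.mem_inter.1 hq).2
    refine Finset.mem_filter.2 ⟨hTF, ?_⟩
    rw [hbad] at hz2
    rw [e1, e2, e3] at hz2
    have hfac : ∀ p ∈ ps, ((∏ q ∈ z.2 ∩ Q0, q) * s1).factorization p = s1.factorization p := by
      intro p hp
      rw [Nat.factorization_mul (prod_ne hTp) hs10, Finsupp.add_apply, fact_prod hTp, if_neg,
        zero_add]
      intro hc
      exact hdisj p hp (Finset.mem_inter.1 hc).2
    have h5 := hZ2 ((∏ q ∈ z.2 ∩ Q0, q) * s1) (mul_ne_zero (prod_ne hTp) hs10) (by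
      unfold lst
      refine List.map_congr_left fun p hp => ?_
      rw [hfac p hp, hs1, fact_prod hU1]
      have h6 : p ∈ ps.toFinset := List.mem_toFinset.2 hp
      simp [hp])
    refine (Nat.succ_le_of_lt (lt_of_lt_of_le hz2 h5)).trans (Finset.card_le_card ?_)
    intro p hp
    obtain ⟨hp1, hp2⟩ := Finset.mem_filter.1 hp
    refine Finset.mem_filter.2 ⟨hp1, ?_⟩
    rw [hfac p (List.mem_toFinset.1 hp1), Nat.mul_div_assoc _ (Nat.ordProj_dvd s1 p)] at hp2
    rw [hm]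
    exact hp2
  -- the sum over the fibres
  have hsum1 : (A0.filter bad).card = ∑ y ∈ A0.image (fun z => (z.1, z.2 \ Q0)),
      ((fib y).filter bad).card := by
    rw [Finset.card_eq_sum_card_fiberwise (f := fun z : ℕ × Finset ℕ => (z.1, z.2 \ Q0))
      (t := A0.image (fun z => (z.1, z.2 \ Q0))) (fun z hz =>
        Finset.mem_image_of_mem _ (Finset.mem_filter.1 hz).1)]
    refine Finset.sum_congr rfl fun y _ => ?_
    congr 1
    rw [hfib]
    ext z
    simp only [Finset.mem_filter]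
    tauto
  have hsum2 : A0.card = ∑ y ∈ A0.image (fun z => (z.1, z.2 \ Q0)), (fib y).card := by
    rw [Finset.card_eq_sum_card_fiberwise (f := fun z : ℕ × Finset ℕ => (z.1, z.2 \ Q0))
      (t := A0.image (fun z => (z.1, z.2 \ Q0))) (fun z hz => Finset.mem_image_of_mem _ hz)]
    rw [hfib]
  have hfinal : (F0 + 1).choose (2 * j) * h.choose j * (A0.filter bad).card ≤
      ((P.K1 * P.K2) ^ 2) ^ (2 * j) * ps.length.choose (2 * j) * A0.card := by
    rw [hsum1, hsum2, Finset.mul_sum, Finset.mul_sum]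
    exact Finset.sum_le_sum fun y _ => key y
  rw [hbad] at hfinal
  convert hfinal using 3
  ext z
  simp only [Finset.mem_filter]

/-- Package GC. -/
theorem p_GC (hGEN : S_GEN) : S_GC := p_GC' hGEN (p_D2 p_D1)

end

end Pool.Agent.Helper38.PQ
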