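import Pool.Agent.Helper5.PQ.Stm

/-! # Project PQ, package PH -/

namespace Pool.Agent.Helper38.PQ

open Finset Classical Pool.Agent.Helper5.RD Pool.Agent.Helper5.PQ

noncomputable section

theorem mem_zip_map {α β : Type*} {l : List α} {f : α → β} {q : α × β} (h : q ∈ l.zip (l.map f)) :
    q.1 ∈ l ∧ q.2 = f q.1 := by
  refine ⟨(List.of_mem_zip h).1, ?_⟩
  rw [List.zip_map_right, List.mem_map] at h
  obtain ⟨r, hr, rfl⟩ := h
  have h4 : r.1 = r.2 := by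
    obtain ⟨i, hi, hir⟩ := List.mem_iff_getElem.1 hr
    rw [List.getElem_zip] at hir
    rw [← hir]
  simp [h4]

theorem not_dvd_prod {p : ℕ} (hp : p.Prime) {S : Finset ℕ} (hS : ∀ q ∈ S, q.Prime) (h : p ∉ S) :
    ¬ p ∣ ∏ q ∈ S, q := by
  intro h1
  obtain ⟨q, hq, h2⟩ := (hp.prime.dvd_finsetProd_iff _).1 h1
  rw [(Nat.prime_dvd_prime_iff_eq hp (hS q hq))] at h2
  exact h (h2 ▸ hq)

theorem sp_mul_xp (R : Finset ℕ) (z : ℕ × Finset ℕ) : sp R z * xp R z = z.1 * ∏ q ∈ z.2, q := by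
  unfold sp xp
  rw [← Finset.prod_inter_mul_prod_sdiff z.2 R]
  ring

theorem lst_inter {R : Finset ℕ} {ps : List ℕ} (h : ps.toFinset ⊆ R) (T : Finset ℕ) :
    lst ps (T ∩ R) = lst ps T := by
  unfold lst
  refine List.map_congr_left fun p hp => ?_
  have h1 : p ∈ R := h (List.mem_toFinset.2 hp)
  simp [h1]

theorem p_PH (hA3 : S_A3) : S_PH := by
  intro P γ Λ hγ hK0 hK1 hK2 hΛ R ps hR hps hnd A A' hA hinj X B hX F0 G hG
  obtain ⟨W, hW⟩ : ∃ W : ℝ, W = P.K0 * Λ ^ ps.length * ((X.card : ℝ) * B.card) ^ γ *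
    (P.K1 : ℝ) ^ F0 := ⟨_, rfl⟩
  obtain ⟨SM, hSM⟩ : ∃ SM : Finset ℤ,
    SM = (A.image (Nat.cast : ℕ → ℤ) ×ˢ B).image (fun q => q.1 + q.2) := ⟨_, rfl⟩
  rw [← hW, ← hSM]
  obtain ⟨f, hf⟩ : ∃ f : (ℕ × Finset ℕ) × ℤ → Finset ℕ × ℤ, f = fun w =>
    (w.1.2 ∩ R, ((w.1.1 * ∏ q ∈ w.1.2, q : ℕ) : ℤ) + w.2) := ⟨_, rfl⟩
  have hfib : ∀ t ∈ R.powerset ×ˢ SM, ((G.filter (fun w => f w = t)).card : ℝ) ≤ W := by
    rintro ⟨S, n⟩ ht
    have hS : S ⊆ R := Finset.mem_powerset.1 (Finset.mem_product.1 ht).1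
    have hSp : ∀ q ∈ S, q.Prime := fun q hq => hR q (hS hq)
    have h3 := hA3 P (∏ q ∈ S, q) γ Λ hγ hK0 hK1 hK2 hΛ (ps.zip (lst ps S)) (by
      intro q hq
      obtain ⟨h1, h2⟩ := mem_zip_map hq
      have hp : q.1.Prime := hR _ (hps (List.mem_toFinset.2 h1))
      refine ⟨hp, ?_⟩
      by_cases hqS : q.1 ∈ S
      · rw [if_pos hqS] at h2
        refine ⟨∏ r ∈ S.erase q.1, r, ?_, ?_⟩
        · rw [h2, pow_one, Finset.mul_prod_erase S (fun r => r) hqS]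
        · exact not_dvd_prod hp (fun r hr => hSp r (Finset.mem_of_mem_erase hr))
            (Finset.notMem_erase _ _)
      · rw [if_neg hqS] at h2
        refine ⟨∏ r ∈ S, r, ?_, not_dvd_prod hp hSp hqS⟩
        rw [h2, pow_zero, one_mul]) X B F0 n
    have hlen : (ps.zip (lst ps S)).length = ps.length := by simp [lst]
    rw [hlen, ← hW] at h3
    refine le_trans ?_ h3
    rw [Nat.cast_le]
    have key : ∀ w ∈ G.filter (fun w => f w = (S, n)),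
        sp R w.1 = ∏ q ∈ S, q ∧ lst ps w.1.2 = lst ps S ∧
        ((∏ q ∈ S, q : ℕ) : ℤ) * (xp R w.1 : ℕ) = ((w.1.1 * ∏ q ∈ w.1.2, q : ℕ) : ℤ) := by
      intro w hw
      have hq2 := (Finset.mem_filter.1 hw).2
      rw [hf] at hq2
      have e1 : w.1.2 ∩ R = S := congrArg Prod.fst hq2
      have h5 : sp R w.1 = ∏ q ∈ S, q := by rw [← e1]; rfl
      refine ⟨h5, ?_, ?_⟩
      · rw [← e1, lst_inter hps]
      · rw [← h5, ← sp_mul_xp R w.1]
        push_cast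
        rfl
    refine Finset.card_le_card_of_injOn (fun w => (((xp R w.1 : ℕ) : ℤ), w.2)) ?_ ?_
    · intro w hw
      obtain ⟨e1, e2, e3⟩ := key w hw
      obtain ⟨hq1, hq2⟩ := Finset.mem_filter.1 hw
      obtain ⟨h1, h2, h4, h5⟩ := hG w hq1
      rw [hf] at hq2
      rw [e2] at h4 h5
      rw [e1] at h5
      refine Finset.mem_filter.2 ⟨Finset.mem_product.2 ⟨hX _ h1, h2⟩, ?_, h4, h5⟩
      show ((∏ q ∈ S, q : ℕ) : ℤ) * (xp R w.1 : ℕ) + w.2 = n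
      rw [e3]
      exact congrArg Prod.snd hq2
    · intro w hw w' hw' h
      obtain ⟨-, -, e3⟩ := key w hw
      obtain ⟨-, -, e3'⟩ := key w' hw'
      have h' : (((xp R w.1 : ℕ) : ℤ), w.2) = (((xp R w'.1 : ℕ) : ℤ), w'.2) := h
      obtain ⟨h1, h2⟩ := Prod.mk.inj h'
      rw [h1, e3'] at e3
      have h3 : w.1 = w'.1 := by
        refine hinj (hG w (Finset.mem_filter.1 hw).1).1 (hG w' (Finset.mem_filter.1 hw').1).1 ?_
        show w.1.1 * ∏ q ∈ w.1.2, q = w'.1.1 * ∏ q ∈ w'.1.2, q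
        exact_mod_cast e3.symm
      exact Prod.ext h3 h2
  have h1 := Finset.card_eq_sum_card_fiberwise (s := G) (t := R.powerset ×ˢ SM) (f := f) (by
    intro w hw
    obtain ⟨h1, h2, -, -⟩ := hG w hw
    rw [hf, hSM]
    refine Finset.mem_coe.2 (Finset.mem_product.2 ⟨Finset.mem_powerset.2 Finset.inter_subset_right, ?_⟩)
    exact Finset.mem_image.2 ⟨(((w.1.1 * ∏ q ∈ w.1.2, q : ℕ) : ℤ), w.2),
      Finset.mem_product.2 ⟨Finset.mem_image_of_mem _ (hA _ h1), h2⟩, rfl⟩)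
  rw [h1, Nat.cast_sum]
  refine (Finset.sum_le_sum hfib).trans (le_of_eq ?_)
  rw [Finset.sum_const, Finset.card_product, Finset.card_powerset, nsmul_eq_mul]
  push_cast
  ring

end

end Pool.Agent.Helper38.PQ
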